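import Pool.Agent.R676.Cox.Geo

/-!
# Subsets of the generators of a Coxeter group generate Coxeter groups
-/

set_option autoImplicit false

namespace Pool.Agent.T2H35.FJC

open Pool.Agent.R676.Cox
open Pool.Agent.Helper741 (cc)

variable {B B' : Type} {M' : CoxeterMatrix B'} {M : CoxeterMatrix B} {W' W : Type} [Group W']
  [Group W] (cs' : CoxeterSystem M' W') (cs : CoxeterSystem M W)

/-- the linear map -/
noncomputable def Em (e : B' → B) : (B' →₀ ℝ) →ₗ[ℝ] (B →₀ ℝ) := Finsupp.lmapDomain ℝ ℝ e

theorem Em_ee (e : B' → B) (i : B') : Em e (ee i) = ee (e i) := by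
  unfold Em ee
  rw [Finsupp.lmapDomain_apply, Finsupp.mapDomain_single]

theorem Em_inj {e : B' → B} (he : Function.Injective e) : Function.Injective (Em e) :=
  Finsupp.mapDomain_injective he

theorem coroot_Em {e : B' → B} (h : ∀ i j, M (e i) (e j) = M' i j) (i : B') (v : B' →₀ ℝ) :
    coroot M (e i) (Em e v) = coroot M' i v := by
  have h1 : (coroot M (e i)).comp (Em e) = coroot M' i := by
    refine Finsupp.lhom_ext' fun j => ?_
    refine LinearMap.ext_ring ?_
    show coroot M (e i) (Em e (ee j)) = coroot M' i (ee j)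
    rw [Em_ee, coroot_ee, coroot_ee]
    unfold cc
    rw [h]
  exact LinearMap.congr_fun h1 v

theorem sg_Em {e : B' → B} (h : ∀ i j, M (e i) (e j) = M' i j) (i : B') (v : B' →₀ ℝ) :
    sg M (e i) (Em e v) = Em e (sg M' i v) := by
  rw [sg_apply, sg_apply, map_sub, map_smul, Em_ee, coroot_Em h]

/-- **the embedding** -/
theorem exists_emb (e : B' → B) (he : Function.Injective e) (h : ∀ i j, M (e i) (e j) = M' i j) :
    ∃ φ : W' →* W, (∀ i, φ (cs'.simple i) = cs.simple (e i)) ∧ Function.Injective φ := by
  have hl : M'.IsLiftable (fun i => cs.simple (e i)) := by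
    intro i j
    show (cs.simple (e i) * cs.simple (e j)) ^ M' i j = 1
    rw [← h]
    exact cs.simple_mul_simple_pow (e i) (e j)
  obtain ⟨φ, hφ⟩ : ∃ φ : W' →* W, ∀ i, φ (cs'.simple i) = cs.simple (e i) :=
    ⟨cs'.lift ⟨_, hl⟩, fun i => cs'.lift_apply_simple hl i⟩
  refine ⟨φ, hφ, ?_⟩
  have key : ∀ (w : W') (v : B' →₀ ℝ), geo cs (φ w) (Em e v) = Em e (geo cs' w v) := by
    intro w
    induction w using cs'.simple_induction with
    | simple i =>
      intro v
      rw [hφ, geo_simple, geo_simple, sg_Em h]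
    | one =>
      intro v
      rw [map_one, map_one, map_one]
      rfl
    | mul w w' hw hw' =>
      intro v
      rw [map_mul, map_mul, map_mul, Module.End.mul_apply, Module.End.mul_apply, hw', hw]
  rw [injective_iff_map_eq_one]
  intro w hw
  apply geo_injective cs'
  rw [map_one]
  refine LinearMap.ext fun v => ?_
  have h1 := key w v
  rw [hw, map_one] at h1
  exact (Em_inj he h1).symm

end Pool.Agent.T2H35.FJC
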