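import Mathlib

/-!
# Extension of partial automorphisms of finite Coxeter matrices
-/

set_option autoImplicit false

namespace Pool.Agent.T2H35.FJC

section

variable {K : ℕ}

/-- the vector of a label -/
def cv (K : ℕ) (l : ℕ) : Fin K → ZMod 2 := fun i => if (i : ℕ) = l then 1 else 0

theorem cv_inj {l l' : ℕ} (h : l < K) (hh : cv K l = cv K l') : l = l' := by
  have h1 := congrFun hh ⟨l, h⟩
  unfold cv at h1
  by_contra hne
  simp [hne] at h1

open Classical in
/-- the label of a vector -/
noncomputable def lam (v : Fin K → ZMod 2) : ℕ :=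
  if h : ∃ l, l < K ∧ l ≠ 1 ∧ cv K l = v then h.choose else 0

theorem lam_ne_one (v : Fin K → ZMod 2) : lam v ≠ 1 := by
  unfold lam
  split_ifs with h
  · exact h.choose_spec.2.1
  · exact zero_ne_one

theorem lam_cv {l : ℕ} (h : l < K) (h1 : l ≠ 1) : lam (cv K l) = l := by
  have h2 : ∃ l', l' < K ∧ l' ≠ 1 ∧ cv K l' = cv K l := ⟨l, h, h1, rfl⟩
  unfold lam
  rw [dif_pos h2]
  exact cv_inj h2.choose_spec.1 h2.choose_spec.2.2

theorem z2 {ι : Type} (a : ι → ZMod 2) : a + a = 0 := by
  funext i
  show a i + a i = 0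
  generalize a i = x
  revert x
  decide

theorem z2' {ι : Type} {a b : ι → ZMod 2} (h : a + b = 0) : a = b := by
  have h1 : a + b + b = b := by rw [h, zero_add]
  rwa [add_assoc, z2, add_zero] at h1

end

open Classical in
/-- the Coxeter matrix of the extension -/
noncomputable def bigM (X : Type) (K : ℕ) : CoxeterMatrix (X × (X → Fin K → ZMod 2)) where
  M := Matrix.of fun p q => if p = q then 1 else if p.1 = q.1 then 0 else lam (p.2 q.1 + q.2 p.1)
  isSymm := by
    refine Matrix.IsSymm.ext fun p q => ?_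
    show (if q = p then 1 else if q.1 = p.1 then 0 else lam (q.2 p.1 + p.2 q.1)) =
      (if p = q then 1 else if p.1 = q.1 then 0 else lam (p.2 q.1 + q.2 p.1))
    rw [add_comm (q.2 p.1)]
    by_cases h : p = q
    · rw [if_pos h, if_pos h.symm]
    · rw [if_neg h, if_neg (fun h' => h h'.symm)]
      by_cases h1 : p.1 = q.1
      · rw [if_pos h1, if_pos h1.symm]
      · rw [if_neg h1, if_neg (fun h' => h1 h'.symm)]
  diagonal := fun p => by
    show (if p = p then 1 else if p.1 = p.1 then 0 else lam (p.2 p.1 + p.2 p.1)) = 1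
    rw [if_pos rfl]
  off_diagonal := fun p q h => by
    show (if p = q then 1 else if p.1 = q.1 then 0 else lam (p.2 q.1 + q.2 p.1)) ≠ 1
    rw [if_neg h]
    split_ifs
    · exact zero_ne_one
    · exact lam_ne_one _

open Classical in
theorem bigM_apply {X : Type} {K : ℕ} (p q : X × (X → Fin K → ZMod 2)) : bigM X K p q =
    if p = q then 1 else if p.1 = q.1 then 0 else lam (p.2 q.1 + q.2 p.1) := rfl

/-- **extension of partial automorphisms** -/
theorem eppa {X : Type} [Finite X] (M : CoxeterMatrix X) (S : Set X) (σ : X → X) (hσ : Set.InjOn σ S)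
    (hM : ∀ a ∈ S, ∀ b ∈ S, M (σ a) (σ b) = M a b) :
    ∃ (Y : Type) (_ : Finite Y) (M' : CoxeterMatrix Y) (j : X → Y) (τ : Equiv.Perm Y),
      Function.Injective j ∧ (∀ a b, M' (j a) (j b) = M a b) ∧ (∀ x y, M' (τ x) (τ y) = M' x y) ∧
      ∀ a ∈ S, τ (j a) = j (σ a) := by
  classical
  have _ := Fintype.ofFinite X
  let _ : LinearOrder X := linearOrderOfSTO WellOrderingRel
  -- a bound for the labels
  obtain ⟨K, hK⟩ : ∃ K : ℕ, ∀ a b, M a b < K := by
    refine ⟨(Finset.univ.sup fun p : X × X => M p.1 p.2) + 1, fun a b => ?_⟩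
    exact Nat.lt_succ_of_le (Finset.le_sup (f := fun p : X × X => M p.1 p.2) (Finset.mem_univ (a, b)))
  -- the permutation
  obtain ⟨π, hπ⟩ : ∃ π : Equiv.Perm X, ∀ a ∈ S, π a = σ a := by
    let e : {x // x ∈ S} ≃ {x // x ∈ σ '' S} := Equiv.Set.imageOfInjOn σ S hσ
    refine ⟨e.extendSubtype, fun a ha => ?_⟩
    exact e.extendSubtype_apply_of_mem a ha
  -- the vectors
  let χ : X → X → Fin K → ZMod 2 := fun x y => if x < y then cv K (M x y) else 0
  have hχ : ∀ x y, x ≠ y → χ x y + χ y x = cv K (M x y) := by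
    intro x y hxy
    show (if x < y then cv K (M x y) else 0) + (if y < x then cv K (M y x) else 0) = _
    rcases lt_or_gt_of_ne hxy with h | h
    · rw [if_pos h, if_neg (not_lt_of_gt h), add_zero]
    · rw [if_neg (not_lt_of_gt h), if_pos h, zero_add, M.symmetric]
  let v : X → X → Fin K → ZMod 2 := fun x y => if x ∈ S then χ (π x) (π y) + χ x y else
    if y ∈ S then χ (π y) (π x) + χ y x else 0
  have hv : ∀ x y, x ≠ y → v x y = v y x := by
    intro x y hxy
    show (if x ∈ S then χ (π x) (π y) + χ x y else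
      if y ∈ S then χ (π y) (π x) + χ y x else 0) = (if y ∈ S then χ (π y) (π x) + χ y x else
      if x ∈ S then χ (π x) (π y) + χ x y else 0)
    by_cases hx : x ∈ S <;> by_cases hy : y ∈ S
    · rw [if_pos hx, if_pos hy]
      apply z2'
      have h1 := hχ (π x) (π y) (fun h => hxy (π.injective h))
      have h2 := hχ x y hxy
      have h3 : M (π x) (π y) = M x y := by rw [hπ x hx, hπ y hy]; exact hM x hx y hy
      rw [h3, ← h2] at h1
      calc χ (π x) (π y) + χ x y + (χ (π y) (π x) + χ y x)
          = (χ (π x) (π y) + χ (π y) (π x)) + (χ x y + χ y x) := by abel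
        _ = 0 := by rw [h1, z2]
    · rw [if_pos hx, if_neg hy, if_pos hx]
    · rw [if_neg hx, if_pos hy]
      rw [if_pos hy]
    · rw [if_neg hx, if_neg hy, if_neg hy, if_neg hx]
  let τ : Equiv.Perm (X × (X → Fin K → ZMod 2)) :=
    { toFun := fun p => (π p.1, fun b => p.2 (π.symm b) + v p.1 (π.symm b))
      invFun := fun p => (π.symm p.1, fun y => p.2 (π y) + v (π.symm p.1) y)
      left_inv := fun p => by
        refine Prod.ext (by simp) ?_
        funext y
        show p.2 (π.symm (π y)) + v p.1 (π.symm (π y)) + v (π.symm (π p.1)) y = p.2 y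
        rw [Equiv.symm_apply_apply, Equiv.symm_apply_apply, add_assoc, z2, add_zero]
      right_inv := fun p => by
        refine Prod.ext (by simp) ?_
        funext y
        show p.2 (π (π.symm y)) + v (π.symm p.1) (π.symm y) + v (π.symm p.1) (π.symm y) = p.2 y
        rw [Equiv.apply_symm_apply, add_assoc, z2, add_zero] }
  refine ⟨X × (X → Fin K → ZMod 2), inferInstance, bigM X K, fun x => (x, χ x), τ, ?_, ?_, ?_, ?_⟩
  · intro x y h
    exact congrArg Prod.fst h
  · intro a b
    rw [bigM_apply]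
    by_cases hab : a = b
    · subst hab
      rw [if_pos rfl, M.diagonal]
    · rw [if_neg (fun h => hab (congrArg Prod.fst h)), if_neg hab]
      show lam (χ a b + χ b a) = _
      rw [hχ a b hab, lam_cv (hK a b) (M.off_diagonal a b hab)]
  · intro x y
    rw [bigM_apply, bigM_apply]
    by_cases hxy : x = y
    · rw [if_pos hxy, if_pos (by rw [hxy])]
    · rw [if_neg hxy, if_neg (fun h => hxy (τ.injective h))]
      by_cases h1 : x.1 = y.1
      · rw [if_pos h1, if_pos (by show π x.1 = π y.1; rw [h1])]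
      · rw [if_neg h1, if_neg (show ¬ (τ x).1 = (τ y).1 from fun h => h1 (π.injective h))]
        congr 1
        show x.2 (π.symm (π y.1)) + v x.1 (π.symm (π y.1)) + (y.2 (π.symm (π x.1)) +
          v y.1 (π.symm (π x.1))) = x.2 y.1 + y.2 x.1
        rw [Equiv.symm_apply_apply, Equiv.symm_apply_apply, hv x.1 y.1 h1]
        calc x.2 y.1 + v y.1 x.1 + (y.2 x.1 + v y.1 x.1)
            = x.2 y.1 + y.2 x.1 + (v y.1 x.1 + v y.1 x.1) := by abel
          _ = _ := by rw [z2, add_zero]
  · intro a ha
    show (π a, fun b => χ a (π.symm b) + v a (π.symm b)) = (σ a, χ (σ a))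
    rw [← hπ a ha]
    refine Prod.ext rfl ?_
    funext b
    show χ a (π.symm b) + v a (π.symm b) = χ (π a) b
    have h1 : v a (π.symm b) = χ (π a) (π (π.symm b)) + χ a (π.symm b) := if_pos ha
    rw [h1, Equiv.apply_symm_apply, add_comm, add_assoc, z2, add_zero]

end Pool.Agent.T2H35.FJC
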