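import Pool.Agent.T2H35.FJC.Emb
import Pool.Agent.T2H35.FJC.Eppa
import Pool.Agent.R684.FP.Free

/-!
# Kernels which are Coxeter groups
-/

set_option autoImplicit false

namespace Pool.Agent.T2H35.FJC

open Pool.Agent.Y110.FJ
open Pool.Agent.Y462.SS (Closed)
open Pool.Agent.R941.FJ (C_equiv)

variable {C : ∀ (G : Type) [Group G], Prop}

theorem C_cox (hC : Closed C) (hcox : ∀ (n : ℕ) (M : CoxeterMatrix (Fin n)), C M.Group)
    {Y : Type} [Finite Y] (M : CoxeterMatrix Y) : C M.Group := by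
  obtain ⟨n, ⟨e⟩⟩ := Finite.exists_equiv_fin Y
  exact C_equiv hC (M.reindexGroupEquiv e).symm (hcox n _)

/-- an automorphism of finite order given by a permutation of the generators -/
theorem exists_aut {Y : Type} [Finite Y] (M : CoxeterMatrix Y) (τ : Equiv.Perm Y)
    (hτ : ∀ x y, M (τ x) (τ y) = M x y) : ∃ θ : MulAut M.Group, IsOfFinOrder θ ∧
      ∀ y, θ (M.simple y) = M.simple (τ y) := by
  obtain ⟨cs, hcs⟩ : ∃ cs : CoxeterSystem M M.Group, cs = M.toCoxeterSystem := ⟨_, rfl⟩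
  have hs : ∀ y, cs.simple y = M.simple y := fun y => by rw [hcs]; rfl
  have hτ' : ∀ x y, M (τ.symm x) (τ.symm y) = M x y := fun x y => by
    rw [← hτ, Equiv.apply_symm_apply, Equiv.apply_symm_apply]
  obtain ⟨f, hf, -⟩ := exists_emb cs cs τ τ.injective hτ
  obtain ⟨f', hf', -⟩ := exists_emb cs cs τ.symm τ.symm.injective hτ'
  let θ : MulAut M.Group := MonoidHom.toMulEquiv f f'
    (cs.ext_simple fun i => by simp [hf, hf']) (cs.ext_simple fun i => by simp [hf, hf'])
  have hθ : ∀ y, θ (cs.simple y) = cs.simple (τ y) := fun y => hf y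
  refine ⟨θ, ?_, fun y => by rw [← hs, ← hs]; exact hθ y⟩
  have hpow : ∀ (k : ℕ) (y : Y), (θ ^ k) (cs.simple y) = cs.simple ((τ ^ k) y) := by
    intro k
    induction k with
    | zero => intro y; rfl
    | succ k ih =>
      intro y
      rw [pow_succ, MulAut.mul_apply, hθ, ih, pow_succ, Equiv.Perm.mul_apply]
  rw [isOfFinOrder_iff_pow_eq_one]
  refine ⟨orderOf τ, orderOf_pos τ, ?_⟩
  apply MulEquiv.toMonoidHom_injective
  refine cs.ext_simple fun i => ?_
  show (θ ^ orderOf τ) (cs.simple i) = cs.simple i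
  rw [hpow, pow_orderOf_eq_one]
  rfl

/-- the semidirect product -/
theorem C_semi (hC : Closed C) {W : Type} [Group W] (hW : C W) (θ : MulAut W)
    (hθ : IsOfFinOrder θ) : C (W ⋊[(Subgroup.zpowers θ).subtype] ↥(Subgroup.zpowers θ)) := by
  have hfin : Finite (Subgroup.zpowers θ) := by
    rw [← SetLike.coe_sort_coe]
    exact (finite_zpowers.2 hθ)
  obtain ⟨r, hr⟩ : ∃ r : W ⋊[(Subgroup.zpowers θ).subtype] ↥(Subgroup.zpowers θ) →*
    ↥(Subgroup.zpowers θ), r = SemidirectProduct.rightHom := ⟨_, rfl⟩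
  have hfi : r.ker.FiniteIndex := by infer_instance
  refine hC.finiteIndex _ r.ker hfi ?_
  rw [hr, ← SemidirectProduct.range_inl_eq_ker_rightHom]
  exact C_equiv hC (MonoidHom.ofInjective SemidirectProduct.inl_injective).symm hW

theorem main (hC : ClosedE C) (hcox : ∀ (n : ℕ) (M : CoxeterMatrix (Fin n)), C M.Group)
    {G : Type} [Group G] (N : Subgroup G) [hNn : N.Normal] (hQ : C (G ⧸ N)) {B : Type}
    (M : CoxeterMatrix B) (cs : CoxeterSystem M N)
    (hg : ∀ (g : G) (S : Finset B), ∃ (σ : B → B) (n : N),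
      (∀ i ∈ S, ∀ j ∈ S, M (σ i) (σ j) = M i j) ∧
      ∀ i ∈ S, g * (cs.simple i : G) * g⁻¹ = n * (cs.simple (σ i) : G) * (n : G)⁻¹) : C G := by
  classical
  refine Pool.Agent.R779.FJ.t_crit Pool.Agent.Y529.FJ.t_ext
    (Pool.Agent.Y961.FJ.t_perm Pool.Agent.Y529.FJ.t_ext) C hC G N hQ (fun g E hE hEN => ?_)
  -- supports
  have hsupp : ∀ x : N, ∃ S : Finset B, x ∈ Subgroup.closure (cs.simple '' (S : Set B)) := by
    intro x
    induction x using cs.simple_induction with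
    | simple i => exact ⟨{i}, Subgroup.subset_closure ⟨i, by simp, rfl⟩⟩
    | one => exact ⟨∅, one_mem _⟩
    | mul x y hx hy =>
      obtain ⟨S, hS⟩ := hx
      obtain ⟨S', hS'⟩ := hy
      refine ⟨S ∪ S', mul_mem (Subgroup.closure_mono (Set.image_mono ?_) hS)
        (Subgroup.closure_mono (Set.image_mono ?_) hS')⟩
      · rw [Finset.coe_union]; exact Set.subset_union_left
      · rw [Finset.coe_union]; exact Set.subset_union_right
  choose sp hsp using hsupp
  obtain ⟨S, hS⟩ : ∃ S : Finset B, ∀ x (hx : x ∈ E), (⟨x, hEN hx⟩ : N) ∈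
      Subgroup.closure (cs.simple '' (S : Set B)) := by
    have hEf : Fintype E := hE.fintype
    refine ⟨Finset.univ.biUnion fun x : E => sp ⟨x, hEN x.2⟩, fun x hx => ?_⟩
    refine Subgroup.closure_mono (Set.image_mono ?_) (hsp ⟨x, hEN hx⟩)
    intro i hi
    rw [Finset.mem_coe, Finset.mem_biUnion]
    exact ⟨⟨x, hx⟩, Finset.mem_univ _, hi⟩
  obtain ⟨σ, n, hσM, hσ⟩ := hg g S
  obtain ⟨S', hS'⟩ : ∃ S' : Finset B, S' = S ∪ S.image σ ∪ sp n := ⟨_, rfl⟩
  have h1 : ∀ i ∈ S, i ∈ S' := fun i hi => by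
    rw [hS']; exact Finset.mem_union_left _ (Finset.mem_union_left _ hi)
  have h2 : ∀ i ∈ S, σ i ∈ S' := fun i hi => by
    rw [hS']
    exact Finset.mem_union_left _ (Finset.mem_union_right _ (Finset.mem_image_of_mem σ hi))
  have h3 : ∀ i ∈ sp n, i ∈ S' := fun i hi => by
    rw [hS']; exact Finset.mem_union_right _ hi
  -- the finite Coxeter matrix
  let M1 : CoxeterMatrix S' :=
    { M := Matrix.of fun i j => M (i : B) (j : B)
      isSymm := Matrix.IsSymm.ext fun i j => M.symmetric _ _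
      diagonal := fun i => M.diagonal _
      off_diagonal := fun i j h => M.off_diagonal _ _ fun h' => h (Subtype.ext h') }
  have hM1 : ∀ i j : S', M1 i j = M (i : B) (j : B) := fun i j => rfl
  obtain ⟨φ, hφs, hφ⟩ := exists_emb M1.toCoxeterSystem cs (fun i : S' => (i : B))
    Subtype.val_injective (fun i j => (hM1 i j).symm)
  let σ' : S' → S' := fun i => if h : (i : B) ∈ S then ⟨σ i, h2 _ h⟩ else i
  have hσ' : ∀ (i : S') (h : (i : B) ∈ S), σ' i = ⟨σ i, h2 _ h⟩ := fun i h => dif_pos h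
  have hσ'M : ∀ a ∈ {i : S' | (i : B) ∈ S}, ∀ b ∈ {i : S' | (i : B) ∈ S},
      M1 (σ' a) (σ' b) = M1 a b := by
    intro a ha b hb
    rw [hσ' a ha, hσ' b hb, hM1, hM1]
    exact hσM _ ha _ hb
  have hσ'i : Set.InjOn σ' {i : S' | (i : B) ∈ S} := by
    intro a ha b hb hab
    by_contra hne
    have e1 := hσ'M a ha b hb
    rw [hab, M1.diagonal] at e1
    exact M1.off_diagonal a b hne e1.symm
  obtain ⟨Y, hY, M2, j, τ, hj, hjM, hτM, hτ⟩ := eppa M1 {i : S' | (i : B) ∈ S} σ' hσ'i hσ'M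
  obtain ⟨ψ, hψs, hψ⟩ := exists_emb M1.toCoxeterSystem M2.toCoxeterSystem j hj hjM
  obtain ⟨θ, hθo, hθ⟩ := exists_aut M2 τ hτM
  have hCP := C_semi hC.base (C_cox hC.base hcox M2) θ hθo
  -- subgroups
  have hle : ∀ U : Finset B, (∀ i ∈ U, i ∈ S') →
      Subgroup.closure (cs.simple '' (U : Set B)) ≤ φ.range := by
    intro U hU
    rw [Subgroup.closure_le]
    rintro _ ⟨i, hi, rfl⟩
    exact ⟨M1.toCoxeterSystem.simple ⟨i, hU i hi⟩, hφs _⟩
  obtain ⟨wn, hwn⟩ := hle (sp n) h3 (hsp n)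
  have key : ∀ x ∈ Subgroup.closure (cs.simple '' (S : Set B)), ∃ w w' : M1.Group, φ w = x ∧
      g * (x : G) * g⁻¹ = n * (φ w' : G) * (n : G)⁻¹ ∧ ψ w' = θ (ψ w) := by
    intro x hx
    induction hx using Subgroup.closure_induction with
    | mem x hx =>
      obtain ⟨i, hi, rfl⟩ := hx
      have hi' : i ∈ S := hi
      refine ⟨M1.toCoxeterSystem.simple ⟨i, h1 i hi'⟩, M1.toCoxeterSystem.simple ⟨σ i, h2 i hi'⟩,
        hφs _, ?_, ?_⟩
      · rw [hφs]
        exact hσ i hi'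
      · rw [hψs, hψs]
        have e1 := hτ ⟨i, h1 i hi'⟩ hi'
        rw [hσ' ⟨i, h1 i hi'⟩ hi'] at e1
        rw [← e1]
        exact (hθ _).symm
    | one => exact ⟨1, 1, map_one φ, by simp, by simp⟩
    | mul x y _ _ hx hy =>
      obtain ⟨w, w', e1, e2, e3⟩ := hx
      obtain ⟨u, u', f1, f2, f3⟩ := hy
      refine ⟨w * u, w' * u', by rw [map_mul, e1, f1], ?_, by rw [map_mul, map_mul, map_mul, e3, f3]⟩
      have e4 : g * ((x * y : N) : G) * g⁻¹ = (g * (x : G) * g⁻¹) * (g * (y : G) * g⁻¹) := by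
        push_cast; group
      rw [e4, e2, f2, map_mul]
      push_cast
      group
    | inv x _ hx =>
      obtain ⟨w, w', e1, e2, e3⟩ := hx
      refine ⟨w⁻¹, w'⁻¹, by rw [map_inv, e1], ?_, by rw [map_inv, map_inv, map_inv, e3]⟩
      have e4 : g * ((x⁻¹ : N) : G) * g⁻¹ = (g * (x : G) * g⁻¹)⁻¹ := by push_cast; group
      rw [e4, e2, map_inv]
      push_cast
      group
  have hHN : Subgroup.closure (E ∪ (fun x => g * x * g⁻¹) '' E) ≤ φ.range.map N.subtype := by
    rw [Subgroup.closure_le]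
    rintro x (hx | ⟨y, hy, rfl⟩)
    · exact ⟨⟨x, hEN hx⟩, hle S h1 (hS x hx), rfl⟩
    · obtain ⟨w, w', -, e2, -⟩ := key _ (hS y hy)
      refine ⟨φ (wn * w' * wn⁻¹), ⟨_, rfl⟩, ?_⟩
      show ((φ (wn * w' * wn⁻¹) : N) : G) = g * y * g⁻¹
      rw [map_mul, map_mul, map_inv, hwn]
      push_cast
      exact e2.symm
  have hHN' : Subgroup.closure (E ∪ (fun x => g * x * g⁻¹) '' E) ≤ N := by
    intro x hx
    obtain ⟨y, -, rfl⟩ := hHN hx
    exact y.2
  let ι : Subgroup.closure (E ∪ (fun x => g * x * g⁻¹) '' E) →* φ.range :=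
    (Subgroup.inclusion hHN').codRestrict φ.range (fun x => by
      obtain ⟨y, hy, hyx⟩ := hHN x.2
      have : Subgroup.inclusion hHN' x = y := Subtype.ext hyx.symm
      rw [this]
      exact hy)
  have hι : Function.Injective ι := by
    intro x y h
    exact Subgroup.inclusion_injective hHN' (congrArg Subtype.val h)
  let φe : M1.Group ≃* φ.range := MonoidHom.ofInjective hφ
  have hφe : ∀ (w : M1.Group) (y : φ.range), φ w = y → φe.symm y = w := by
    intro w y h
    rw [MulEquiv.symm_apply_eq]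
    exact Subtype.ext h.symm
  let f : Subgroup.closure (E ∪ (fun x => g * x * g⁻¹) '' E) →*
      M2.Group ⋊[(Subgroup.zpowers θ).subtype] ↥(Subgroup.zpowers θ) :=
    SemidirectProduct.inl.comp (ψ.comp (φe.symm.toMonoidHom.comp ι))
  have hf : ∀ (x : Subgroup.closure (E ∪ (fun x => g * x * g⁻¹) '' E)) (w : M1.Group),
      φ w = ι x → f x = SemidirectProduct.inl (ψ w) := by
    intro x w h
    show SemidirectProduct.inl (ψ (φe.symm (ι x))) = _
    rw [hφe w _ h]
  refine ⟨_, inferInstance, f, SemidirectProduct.inl (ψ wn) *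
    SemidirectProduct.inr ⟨θ, Subgroup.mem_zpowers θ⟩, hCP, ?_, fun x y hx hy => ?_⟩
  · exact SemidirectProduct.inl_injective.comp (hψ.comp (φe.symm.injective.comp hι))
  · obtain ⟨w, w', e1, e2, e3⟩ := key _ (hS x hx)
    have ex : φ w = ι x := by
      rw [e1]
      rfl
    have ey : φ (wn * w' * wn⁻¹) = ι y := by
      apply Subtype.ext
      show ((φ (wn * w' * wn⁻¹) : N) : G) = (y : G)
      rw [hy, map_mul, map_mul, map_inv, hwn]
      push_cast
      exact e2.symm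
    rw [hf x w ex, hf y _ ey, map_mul, map_mul, map_inv, map_mul, map_mul, map_inv, e3]
    have e4 : (θ (ψ w) : M2.Group) = (Subgroup.zpowers θ).subtype ⟨θ, Subgroup.mem_zpowers θ⟩ (ψ w) :=
      rfl
    rw [e4, SemidirectProduct.inl_aut, map_inv]
    group

end Pool.Agent.T2H35.FJC
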